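import Mathlib

namespace Pool.Agent.H.MP_f836f4_co

abbrev V (m : ℕ) := Option (Fin m × List (Fin m) × (Fin m → ZMod 2))

def up {m : ℕ} : V m → V m → Prop
  | none, some (_, w, _) => w = []
  | some (j, w, a), some (i, w', b) => w' = j :: w ∧ a i = ∑ k, b k
  | _, none => False

def lev {m : ℕ} : V m → ℕ
  | none => 0
  | some (_, w, _) => w.length + 1

theorem up_lev {m : ℕ} {x y : V m} (h : up x y) : lev y = lev x + 1 := by
  rcases x with _ | ⟨j, w, a⟩ <;> rcases y with _ | ⟨i, w', b⟩ <;> simp [up, lev] at h ⊢
  · exact h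
  · simp [h.1]

def G (m : ℕ) : SimpleGraph (V m) where
  Adj x y := up x y ∨ up y x
  symm := ⟨fun _ _ h => h.symm⟩
  loopless := ⟨fun x h => by
    rcases h with h | h <;> have := up_lev h <;> omega⟩

theorem adj_iff {m : ℕ} (x y : V m) : (G m).Adj x y ↔ up x y ∨ up y x := Iff.rfl

theorem walk_lev {m : ℕ} {x y : V m} (p : (G m).Walk x y) : lev y ≤ lev x + p.length := by
  induction p with
  | nil => simp
  | cons h p ih =>
    rcases h with h | h <;> have := up_lev h <;> simp <;> omega

theorem exists_walk {m : ℕ} : ∀ (w : List (Fin m)) (i : Fin m) (b : Fin m → ZMod 2),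
    ∃ p : (G m).Walk none (some (i, w, b)), p.length = w.length + 1 := by
  intro w
  induction w with
  | nil =>
    intro i b
    exact ⟨SimpleGraph.Walk.cons (Or.inl (by simp [up])) SimpleGraph.Walk.nil, by simp⟩
  | cons j w ih =>
    intro i b
    obtain ⟨p, hp⟩ := ih j (fun _ => ∑ k, b k)
    refine ⟨p.concat (Or.inl (by simp [up])), by simp [hp]⟩

theorem exists_walk' {m : ℕ} (v : V m) : ∃ p : (G m).Walk none v, p.length = lev v := by
  rcases v with _ | ⟨i, w, b⟩
  · exact ⟨SimpleGraph.Walk.nil, rfl⟩
  · exact exists_walk w i b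

theorem conn (m : ℕ) : (G m).Connected := by
  refine ⟨fun x y => ?_⟩
  obtain ⟨p, _⟩ := exists_walk' x
  obtain ⟨q, _⟩ := exists_walk' y
  exact ⟨p.reverse.append q⟩

theorem dist_eq {m : ℕ} (v : V m) : (G m).dist none v = lev v := by
  apply le_antisymm
  · obtain ⟨p, hp⟩ := exists_walk' v
    exact hp ▸ SimpleGraph.dist_le p
  · obtain ⟨p, hp⟩ := ((conn m) none v).exists_walk_length_eq_dist
    have := walk_lev p
    simp [lev] at this
    rw [← hp]
    rcases v with _ | ⟨i, w, b⟩
    · simp [lev]
    · simpa [lev] using this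

theorem lev_finite (m n : ℕ) : {v : V m | lev v ≤ n}.Finite := by
  have h1 : {w : List (Fin m) | w.length ≤ n}.Finite := List.finite_length_le (Fin m) n
  have h2 : ((Set.univ : Set (Fin m)) ×ˢ ({w : List (Fin m) | w.length ≤ n} ×ˢ
      (Set.univ : Set (Fin m → ZMod 2)))).Finite :=
    Set.finite_univ.prod (h1.prod Set.finite_univ)
  refine ((h2.image some).insert none).subset ?_
  intro v hv
  rcases v with _ | ⟨i, w, b⟩
  · simp
  · simp [lev] at hv ⊢
    omega

theorem locfin (m : ℕ) (v : V m) : ((G m).neighborSet v).Finite := by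
  refine (lev_finite m (lev v + 1)).subset ?_
  intro y hy
  rcases hy with h | h <;> have := up_lev h <;> simp <;> omega

theorem motion (m : ℕ) (σ : G m ≃g G m) (h : {v | σ v ≠ v}.Finite) : ∀ v, σ v = v := by
  obtain ⟨N, hN⟩ : ∃ N, ∀ v, N ≤ lev v → σ v = v := by
    obtain ⟨N, hN⟩ := (h.image lev).bddAbove
    refine ⟨N + 1, fun v hv => ?_⟩
    by_contra hne
    have := hN ⟨v, hne, rfl⟩
    omega
  have step : ∀ n, (∀ v, n + 1 ≤ lev v → σ v = v) → ∀ v, n ≤ lev v → σ v = v := by
    intro n ih v hv
    rcases Nat.lt_or_ge n (lev v) with hlt | hge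
    · exact ih v hlt
    have hvn : lev v = n := by omega
    have hs : lev (σ v) ≤ n := by
      by_contra hc
      have h1 : σ (σ v) = σ v := ih _ (by omega)
      have h2 : σ v = v := σ.injective h1
      rw [h2] at hc
      omega
    rcases v with _ | ⟨j, w, a⟩
    · simp [lev] at hvn
      rcases hσ : σ none with _ | ⟨i, w', b⟩
      · rfl
      · rw [hσ] at hs
        simp [lev] at hs
        omega
    · have key : ∀ i : Fin m, up (σ (some (j, w, a))) (some (i, j :: w, Pi.single i (a i))) := by
        intro i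
        have h1 : (G m).Adj (some (j, w, a)) (some (i, j :: w, Pi.single i (a i))) :=
          Or.inl (by simp [up])
        have h2 := σ.map_rel_iff.2 h1
        have h3 : σ (some (i, j :: w, Pi.single i (a i))) = some (i, j :: w, Pi.single i (a i)) :=
          ih _ (by simp [lev] at hvn ⊢; omega)
        rw [h3] at h2
        rcases h2 with h2 | h2
        · exact h2
        · have := up_lev h2
          simp [lev] at hvn this
          simp [lev] at hs
          omega
      rcases hσ : σ (some (j, w, a)) with _ | ⟨j', w', a'⟩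
      · have := key j
        rw [hσ] at this
        simp [up] at this
      · have h1 := key j
        rw [hσ] at h1
        simp [up] at h1
        have h2 : a' = a := by
          funext i
          have := key i
          rw [hσ] at this
          simp [up] at this
          exact this.2
        simp [h1.1.1, h1.1.2, h2]
  have all : ∀ k, ∀ v, N - k ≤ lev v → σ v = v := by
    intro k
    induction k with
    | zero => simpa using hN
    | succ k ih =>
      apply step
      intro v hv
      exact ih v (by omega)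
  intro v
  exact all N v (by omega)

def P {m : ℕ} (f : List (Fin m) → Fin m) : List (Fin m) → Prop
  | [] => True
  | i :: w => P f w ∧ i = f w

open Classical in
noncomputable def t {m : ℕ} (f : List (Fin m) → Fin m) (u : List (Fin m)) : Fin m → ZMod 2 :=
  if P f u then Pi.single (f u) 1 else 0

noncomputable def sg {m : ℕ} (f : List (Fin m) → Fin m) : V m → V m
  | none => none
  | some (i, w, b) => some (i, w, b + t f (i :: w))

theorem sg_sg {m : ℕ} (f : List (Fin m) → Fin m) (v : V m) : sg f (sg f v) = v := by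
  rcases v with _ | ⟨i, w, b⟩
  · rfl
  · simp only [sg, Option.some.injEq, Prod.mk.injEq, true_and]
    funext k
    simp [add_assoc, CharTwo.add_self_eq_zero]

theorem t_rel {m : ℕ} (f : List (Fin m) → Fin m) (u : List (Fin m)) (i : Fin m) :
    t f u i = ∑ k, t f (i :: u) k := by
  unfold t
  by_cases h : P f u
  · by_cases hi : i = f u
    · have : P f (i :: u) := ⟨h, hi⟩
      simp [h, this, hi]
      rw [← hi]
      simp [this]
    · have : ¬ P f (i :: u) := fun h' => hi h'.2
      simp [h, this, Pi.single_apply, hi]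
  · have : ¬ P f (i :: u) := fun h' => h h'.1
    simp [h, this]

theorem up_sg {m : ℕ} (f : List (Fin m) → Fin m) (x y : V m) : up (sg f x) (sg f y) ↔ up x y := by
  rcases x with _ | ⟨j, w, a⟩ <;> rcases y with _ | ⟨i, w', b⟩ <;> simp only [up, sg]
  constructor
  · rintro ⟨rfl, h⟩
    refine ⟨rfl, ?_⟩
    simp only [Pi.add_apply, Finset.sum_add_distrib] at h
    rw [← t_rel] at h
    exact add_right_cancel h
  · rintro ⟨rfl, h⟩
    refine ⟨rfl, ?_⟩
    simp only [Pi.add_apply, Finset.sum_add_distrib]
    rw [← t_rel, h]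

noncomputable def iso {m : ℕ} (f : List (Fin m) → Fin m) : G m ≃g G m where
  toFun := sg f
  invFun := sg f
  left_inv := sg_sg f
  right_inv := sg_sg f
  map_rel_iff' := by
    intro x y
    show up (sg f x) (sg f y) ∨ up (sg f y) (sg f x) ↔ up x y ∨ up y x
    rw [up_sg, up_sg]

theorem exists_f (C : ℕ) (red : Set (V (C + 1)))
    (h : ∀ r, ({v | (G (C + 1)).dist none v = r} ∩ red).encard ≤ C) (w : List (Fin (C + 1))) :
    ∃ i, ∀ b, some (i, w, b) ∉ red := by
  by_contra hc
  push Not at hc
  choose b hb using hc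
  have h1 := h (w.length + 1)
  have hinj : Function.Injective (fun i : Fin (C + 1) => (some (i, w, b i) : V (C + 1))) := by
    intro i j hij
    simp at hij
    exact hij.1
  have h2 : Set.range (fun i : Fin (C + 1) => (some (i, w, b i) : V (C + 1))) ⊆
      {v | (G (C + 1)).dist none v = w.length + 1} ∩ red := by
    rintro _ ⟨i, rfl⟩
    exact ⟨by simp [dist_eq, lev], hb i⟩
  have h3 := (Set.encard_le_encard h2).trans h1
  rw [← Set.image_univ, hinj.encard_image, Set.encard_univ] at h3
  simp at h3
  norm_cast at h3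
  omega

theorem main (C : ℕ) (red : Set (V (C + 1)))
    (h : ∀ r, ({v | (G (C + 1)).dist none v = r} ∩ red).encard ≤ C) :
    ∃ σ : G (C + 1) ≃g G (C + 1), (∀ v, σ v ∈ red ↔ v ∈ red) ∧ ∃ v, σ v ≠ v := by
  choose f hf using exists_f C red h
  refine ⟨iso f, ?_, ?_⟩
  · intro v
    rcases v with _ | ⟨i, w, b⟩
    · rfl
    · show some (i, w, b + t f (i :: w)) ∈ red ↔ _
      by_cases hp : P f (i :: w)
      · have hi : i = f w := hp.2
        rw [hi]
        simp [hf]
      · simp [t, hp]
  · refine ⟨some (f [], [], 0), ?_⟩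
    show some (f [], [], 0 + t f [f []]) ≠ _
    have hp : P f [f []] := ⟨trivial, rfl⟩
    simp [t, hp]

end Pool.Agent.H.MP_f836f4_co
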